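import Pool.Agent.H94.CB.M109
import Pool.Agent.H94.CB.M24
import Pool.Agent.H94.CB.M27
import Pool.Agent.H94.CB.M34

/-!
# TN KK: the length of the forms in the charts

Port of `TH/KK.lean`.  `kap_trans`: `fderiv (β i) (q i x) = fderiv (β j) (q j x) ∘ T i j x` (`T_beta`) and `kap_comp`.
-/

set_option autoImplicit false

open Topology Filter Metric

namespace Pool.Agent.TN

attribute [-instance] ProperSMul.toContinuousSMul

open Pool.Agent.H36.BP (EN fs wd Sub)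
open Pool.Agent.H14.PP (IsCone CurveAt Tan)
open Pool.Agent.H62.EF (MN pr)
open Pool.Agent.H5.BD (BC evp)
open Pool.Agent.AD (Vd Chart Charts TorusMapV DiscreteSub)
open Pool.Agent.AD.BD (Atlas LC Good qc)

variable {N k : ℕ} {X : Set (EN N)}

private theorem KK_an {m : ℕ} (Ω : Pool.Agent.H19T.TForm (k + 2) (k + 2) X m) (χ : Chart (k + 2) X) {p : Vd (k + 2)} (hp : p ∈ ball (0 : Vd (k + 2)) 2) :
    AnalyticAt ℂ (fun y : Vd (k + 2) => Ω.toFun (χ.σ y) (fun l => fderiv ℂ χ.σ y (Pi.single l 1))) p := by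
  have h0 : ∀ᶠ y in 𝓝 p, χ.σ y ∈ X := by
    filter_upwards [isOpen_ball.mem_nhds hp] with y hy
    exact (χ.σ_mem y hy).1
  have h1 := Ω.analytic χ.σ p (fun l => Pi.single l 1) (χ.σ_an p hp) h0
  exact AnalyticAt.comp (g := fun y : Vd (k + 2) × (Fin (k + 2) → Vd (k + 2)) => Ω.toFun (χ.σ y.1) fun i => fderiv ℂ χ.σ y.1 (y.2 i))
    (f := fun y : Vd (k + 2) => (y, fun l => Pi.single l 1)) h1 (analyticAt_id.prod analyticAt_const)

/-- The lift: `χ.σ y = c y • χ'.σ (τ y)` near `p`, with `c` differentiable at `p`. -/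
private theorem KK_lift (hX : IsCone X) (χ χ' : Chart (k + 2) X) {p : Vd (k + 2)}
    (hp : p ∈ ball (0 : Vd (k + 2)) 2) (hU : χ.σ p ∈ χ'.U) :
    ∃ (c : ℂ) (c' : Vd (k + 2) →L[ℂ] ℂ), c ≠ 0 ∧ χ'.q (χ.σ p) ∈ ball (0 : Vd (k + 2)) 2 ∧
      χ.σ p = c • χ'.σ (χ'.q (χ.σ p)) ∧
      ∀ w : Vd (k + 2), fderiv ℂ χ.σ p w =
        c • fderiv ℂ χ'.σ (χ'.q (χ.σ p)) (fderiv ℂ (fun y => χ'.q (χ.σ y)) p w) +
          c' w • χ'.σ (χ'.q (χ.σ p)) := by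
  obtain ⟨hτ, c0, hc0, hx⟩ := χ'.surj (χ.σ p) (χ.σ_mem p hp).1 hU
  set x' : EN N := χ'.σ (χ'.q (χ.σ p)) with hx'
  have hx'0 : x' ≠ 0 := χ'.sigma_ne_zero hX hτ
  have hin : inner ℂ x' x' ≠ 0 := by
    rw [Ne, inner_self_eq_zero]
    exact hx'0
  have hτan : AnalyticAt ℂ (fun y => χ'.q (χ.σ y)) p :=
    AnalyticAt.comp (g := χ'.q) (f := χ.σ) (χ'.q_an _ hU) (χ.σ_an p hp)
  have hσ'an : AnalyticAt ℂ (fun y => χ'.σ (χ'.q (χ.σ y))) p :=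
    AnalyticAt.comp (g := χ'.σ) (f := fun y => χ'.q (χ.σ y)) (χ'.σ_an _ hτ) hτan
  have hnum : AnalyticAt ℂ (fun y => innerSL ℂ x' (χ.σ y)) p :=
    AnalyticAt.comp (g := fun v => innerSL ℂ x' v) (f := χ.σ)
      ((innerSL ℂ x').analyticAt _) (χ.σ_an p hp)
  have hden : AnalyticAt ℂ (fun y => innerSL ℂ x' (χ'.σ (χ'.q (χ.σ y)))) p :=
    AnalyticAt.comp (g := fun v => innerSL ℂ x' v) (f := fun y => χ'.σ (χ'.q (χ.σ y)))
      ((innerSL ℂ x').analyticAt _) hσ'an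
  have hden0 : innerSL ℂ x' (χ'.σ (χ'.q (χ.σ p))) ≠ 0 := by
    rw [← hx', innerSL_apply_apply]
    exact hin
  let C : Vd (k + 2) → ℂ := fun y => innerSL ℂ x' (χ.σ y) / innerSL ℂ x' (χ'.σ (χ'.q (χ.σ y)))
  have hC : AnalyticAt ℂ C p := hnum.div hden hden0
  have hCp : C p = c0 := by
    show innerSL ℂ x' (χ.σ p) / innerSL ℂ x' (χ'.σ (χ'.q (χ.σ p))) = c0
    rw [div_eq_iff hden0]
    conv_lhs => rw [hx]
    rw [map_smul, smul_eq_mul]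
  have hev : ∀ᶠ y in 𝓝 p, χ.σ y = C y • χ'.σ (χ'.q (χ.σ y)) := by
    have h1 : ∀ᶠ y in 𝓝 p, y ∈ ball (0 : Vd (k + 2)) 2 := isOpen_ball.mem_nhds hp
    have h2 : ∀ᶠ y in 𝓝 p, χ.σ y ∈ χ'.U :=
      (χ.σ_an p hp).continuousAt.eventually (χ'.isOpen_U.mem_nhds hU)
    have h3 : ∀ᶠ y in 𝓝 p, innerSL ℂ x' (χ'.σ (χ'.q (χ.σ y))) ≠ 0 :=
      hden.continuousAt.eventually_ne hden0
    filter_upwards [h1, h2, h3] with y hy1 hy2 hy3
    obtain ⟨-, b, hb, hxb⟩ := χ'.surj (χ.σ y) (χ.σ_mem y hy1).1 hy2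
    have h4 : C y = b := by
      show innerSL ℂ x' (χ.σ y) / innerSL ℂ x' (χ'.σ (χ'.q (χ.σ y))) = b
      rw [div_eq_iff hy3]
      conv_lhs => rw [hxb]
      rw [map_smul, smul_eq_mul]
    rw [h4]
    exact hxb
  refine ⟨c0, fderiv ℂ C p, hc0, hτ, hx, fun w => ?_⟩
  have hD1 : HasFDerivAt (fun y => χ'.σ (χ'.q (χ.σ y)))
      ((fderiv ℂ χ'.σ (χ'.q (χ.σ p))).comp (fderiv ℂ (fun y => χ'.q (χ.σ y)) p)) p :=
    HasFDerivAt.comp (g := χ'.σ) (f := fun y => χ'.q (χ.σ y)) p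
      (χ'.σ_an _ hτ).differentiableAt.hasFDerivAt hτan.differentiableAt.hasFDerivAt
  have hD2 : HasFDerivAt (fun y => C y • χ'.σ (χ'.q (χ.σ y)))
      (C p • ((fderiv ℂ χ'.σ (χ'.q (χ.σ p))).comp (fderiv ℂ (fun y => χ'.q (χ.σ y)) p)) +
        (fderiv ℂ C p).smulRight (χ'.σ (χ'.q (χ.σ p)))) p :=
    hC.differentiableAt.hasFDerivAt.smul hD1
  have hD3 : HasFDerivAt χ.σ
      (C p • ((fderiv ℂ χ'.σ (χ'.q (χ.σ p))).comp (fderiv ℂ (fun y => χ'.q (χ.σ y)) p)) +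
        (fderiv ℂ C p).smulRight (χ'.σ (χ'.q (χ.σ p)))) p :=
    hD2.congr_of_eventuallyEq hev
  rw [hD3.fderiv, hCp]
  rfl

private theorem KK_tan_smul (hX : IsCone X) {x v : EN N} (h : Tan X x v) {c : ℂ}
    (hc : c ≠ 0) : Tan X (c • x) (c • v) := by
  obtain ⟨F, hF, hF0, hFd⟩ := h
  refine ⟨fun z => c • F z, ⟨AnalyticAt.fun_smul analyticAt_const hF.1, ?_⟩, ?_, ?_⟩
  · filter_upwards [hF.2] with z hz
    exact hX.smul_mem _ hz c hc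
  · show c • F 0 = c • x
    rw [hF0]
  · have h1 : HasDerivAt (fun z => c • F z) (c • deriv F 0) 0 :=
      hF.1.differentiableAt.hasDerivAt.const_smul c
    rw [h1.deriv, hFd]

private theorem KK_trans {m : ℕ} (hX : IsCone X) (Ω : Pool.Agent.H19T.TForm (k + 2) (k + 2) X m) (χ χ' : Chart (k + 2) X) {p : Vd (k + 2)}
    (hp : p ∈ ball (0 : Vd (k + 2)) 2) (hU : χ.σ p ∈ χ'.U) :
    ‖Ω.toFun (χ.σ p) (fun l => fderiv ℂ χ.σ p (Pi.single l 1))‖ * ‖χ.σ p‖ =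
      ‖LinearMap.det (fderiv ℂ (fun y => χ'.q (χ.σ y)) p : Vd (k + 2) →ₗ[ℂ] Vd (k + 2))‖ ^ m *
        (‖Ω.toFun (χ'.σ (χ'.q (χ.σ p))) (fun l => fderiv ℂ χ'.σ (χ'.q (χ.σ p)) (Pi.single l 1))‖ * ‖χ'.σ (χ'.q (χ.σ p))‖) := by
  obtain ⟨c, c', hc, hτ, hx, hD⟩ := KK_lift hX χ χ' hp hU
  set y : EN N := χ'.σ (χ'.q (χ.σ p)) with hy
  set D : Vd (k + 2) →L[ℂ] EN N := fderiv ℂ χ'.σ (χ'.q (χ.σ p)) with hDd
  set T : Vd (k + 2) →L[ℂ] Vd (k + 2) := fderiv ℂ (fun y => χ'.q (χ.σ y)) p with hT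
  have hyX : y ∈ X := (χ'.σ_mem _ hτ).1
  have ht : ∀ w : Vd (k + 2), Tan X y (D w) := fun w => Pool.Agent.AD.BD.tan_fderiv hX χ' hτ w
  -- the scaling
  have h1 := Ω.scale y hyX (fun l => D (T (Pi.single l 1))) (fun l => ht _) c hc
  -- adding multiples of the point
  have h2 := Ω.add_smul (c • y) (hX.smul_mem _ hyX c hc) (fun l => c • D (T (Pi.single l 1))) (fun l => KK_tan_smul hX (ht _) hc)
    (fun l => c' (Pi.single l 1) * c⁻¹)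
  have h3 : (fun l : Fin (k + 2) => c • D (T (Pi.single l 1)) + (c' (Pi.single l 1) * c⁻¹) • c • y) = fun l => fderiv ℂ χ.σ p (Pi.single l 1) := by
    funext l
    rw [hD, smul_smul, mul_assoc, inv_mul_cancel₀ hc, mul_one]
  -- the determinant
  have h4 := Ω.det y hyX (fun l => D (Pi.single l 1)) (fun l => ht _) (LinearMap.toMatrix' (T : Vd (k + 2) →ₗ[ℂ] Vd (k + 2))).transpose
  have h5 : (fun l : Fin (k + 2) => ∑ j, (LinearMap.toMatrix' (T : Vd (k + 2) →ₗ[ℂ] Vd (k + 2))).transpose l j • D (Pi.single j 1)) = fun l => D (T (Pi.single l 1)) := by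
    funext l
    have e1 : T (Pi.single l 1) = ∑ j, (T (Pi.single l 1)) j • (Pi.single j 1 : Vd (k + 2)) := by
      funext a
      rw [Finset.sum_apply]
      simp [Pi.single_apply]
    conv_rhs => rw [e1, map_sum]
    refine Finset.sum_congr rfl fun j _ => ?_
    rw [map_smul, Matrix.transpose_apply, LinearMap.toMatrix'_apply]
    rfl
  rw [Matrix.det_transpose, LinearMap.det_toMatrix', h5] at h4
  rw [h3] at h2
  have h6 : c * Ω.toFun (χ.σ p) (fun l => fderiv ℂ χ.σ p (Pi.single l 1)) =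
      LinearMap.det (T : Vd (k + 2) →ₗ[ℂ] Vd (k + 2)) ^ m * Ω.toFun y (fun l => D (Pi.single l 1)) := by
    rw [← h4, ← h1, ← h2, hx]
  have h7 : ‖χ.σ p‖ = ‖c‖ * ‖y‖ := by
    conv_lhs => rw [hx]
    rw [norm_smul]
  have h8 := congrArg norm h6
  rw [norm_mul, norm_mul, norm_pow] at h8
  rw [h7, ← mul_assoc, ← mul_assoc, ← h8]
  ring

private theorem KK_unit (z : ℂ) : ∃ ζ : ℂ, ‖ζ‖ = 1 ∧ ζ * z = (‖z‖ : ℂ) := by
  rcases eq_or_ne z 0 with h | h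
  · exact ⟨1, norm_one, by rw [h]; simp⟩
  · have hn : (‖z‖ : ℂ) ≠ 0 := by exact_mod_cast (norm_pos_iff.2 h).ne'
    refine ⟨(‖z‖ : ℂ) / z, ?_, div_mul_cancel₀ _ h⟩
    rw [norm_div, Complex.norm_real, norm_norm, div_self (norm_pos_iff.2 h).ne']

private theorem KK_sum {J : ℕ} {h : Fin J → ℂ → ℂ} {z₀ : ℂ} (han : ∀ a, AnalyticAt ℂ (h a) z₀) (h0 : 0 < ∑ a, ‖h a z₀‖) :
    Sub (fun z => ∑ a, ‖h a z‖) z₀ 0 := by
  choose ζ hζ hζ' using fun a => KK_unit (h a z₀)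
  have e0 : ∑ a, ζ a * h a z₀ = ((∑ a, ‖h a z₀‖ : ℝ) : ℂ) := by
    push_cast
    exact Finset.sum_congr rfl fun a _ => hζ' a
  have e1 : AnalyticAt ℂ (fun z => ∑ a, ζ a * h a z) z₀ := Finset.analyticAt_fun_sum _ fun a _ => analyticAt_const.mul (han a)
  have e2 : (∑ a, ζ a * h a z₀) ≠ 0 := by
    rw [e0]
    exact_mod_cast h0.ne'
  refine (Sub.of_holo e1 e2).mono ?_ ?_
  · show ‖∑ a, ζ a * h a z₀‖ = _
    rw [e0, Complex.norm_real, Real.norm_of_nonneg h0.le]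
  · refine Eventually.of_forall fun z => ?_
    refine (norm_sum_le _ _).trans (Finset.sum_le_sum fun a _ => ?_)
    rw [norm_mul, hζ a, one_mul]

namespace Setting

variable (S : Setting k X)

theorem kk_cont (i : Fin S.A.n) {p : Vd (k + 2)} (hp : p ∈ ball (0 : Vd (k + 2)) 2) : ContinuousAt (S.kk i) p := by
  unfold kk
  refine ContinuousAt.mul ?_ ((S.A.χ i).σ_an p hp).continuousAt.norm
  have h1 : ∀ a, ContinuousAt (fun p => ‖(S.Ω a).toFun ((S.A.χ i).σ p) (fun l => fderiv ℂ (S.A.χ i).σ p (Pi.single l 1))‖) p :=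
    fun a => (KK_an (S.Ω a) (S.A.χ i) hp).continuousAt.norm
  exact tendsto_finsetSum _ fun a _ => h1 a

theorem kk_pos (i : Fin S.A.n) {p : Vd (k + 2)} (hp : p ∈ ball (0 : Vd (k + 2)) 2) : 0 < S.kk i p := by
  have hX := S.cone
  have hσ0 : (S.A.χ i).σ p ≠ 0 := (S.A.χ i).sigma_ne_zero hX hp
  have hind : LinearIndependent ℂ (Fin.cons ((S.A.χ i).σ p) (fun l => fderiv ℂ (S.A.χ i).σ p (Pi.single l 1)) : Fin (k + 2 + 1) → EN N) := by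
    rw [Fintype.linearIndependent_iff]
    intro g hg
    rw [Fin.sum_univ_succ] at hg
    simp only [Fin.cons_zero, Fin.cons_succ] at hg
    have h1 := congrArg (fderiv ℂ (S.A.χ i).q ((S.A.χ i).σ p)) hg
    rw [map_add, map_smul, map_sum, (S.A.χ i).fderiv_q_self ((S.A.χ i).σ_mem p hp).2.1, smul_zero, zero_add, map_zero] at h1
    have h2 : ∀ l : Fin (k + 2), g l.succ = 0 := by
      intro l
      have h3 := congrFun h1 l
      simp only [map_smul, (S.A.χ i).fderiv_sigma hp, Finset.sum_apply, Pi.smul_apply, smul_eq_mul, Pi.single_apply, mul_ite, mul_one,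
        mul_zero, Finset.sum_ite_eq, Finset.mem_univ, if_true, Pi.zero_apply] at h3
      exact h3
    have h4 : g 0 = 0 := by
      simp only [h2, zero_smul, Finset.sum_const_zero, add_zero] at hg
      exact (smul_eq_zero.1 hg).resolve_right hσ0
    intro j
    exact Fin.cases h4 h2 j
  obtain ⟨a, hk⟩ := S.noZero ((S.A.χ i).σ p) ((S.A.χ i).σ_mem p hp).1 _ (fun l => Pool.Agent.AD.BD.tan_fderiv hX (S.A.χ i) hp _) hind
  unfold kk
  refine mul_pos ?_ (norm_pos_iff.2 hσ0)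
  exact Finset.sum_pos' (fun a _ => norm_nonneg _) ⟨a, Finset.mem_univ a, norm_pos_iff.2 hk⟩

theorem kk_trans {x : EN N} (hx : x ∈ X) {i j : Fin S.A.n} (hi : x ∈ (S.A.χ i).U) (hj : x ∈ (S.A.χ j).U) :
    S.kk i (S.q i x) = ‖LinearMap.det (S.T i j x : Vd (k + 2) →ₗ[ℂ] Vd (k + 2))‖ ^ S.m * S.kk j (S.q j x) := by
  obtain ⟨hb, c, hc, h1⟩ := (S.A.χ i).surj x hx hi
  have h2 : (S.A.χ i).σ ((S.A.χ i).q x) = c⁻¹ • x := by
    conv_rhs => rw [h1]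
    rw [smul_smul, inv_mul_cancel₀ hc, one_smul]
  have hU : (S.A.χ i).σ ((S.A.χ i).q x) ∈ (S.A.χ j).U := by
    rw [h2]
    exact (S.A.χ j).smul_U x hj _ (inv_ne_zero hc)
  have hq : (S.A.χ j).q ((S.A.χ i).σ ((S.A.χ i).q x)) = (S.A.χ j).q x := by
    rw [h2]
    exact (S.A.χ j).q_smul x hj _ (inv_ne_zero hc)
  unfold kk
  rw [Finset.sum_mul, Finset.sum_mul, Finset.mul_sum]
  refine Finset.sum_congr rfl fun a _ => ?_
  have h3 := KK_trans S.cone (S.Ω a) (S.A.χ i) (S.A.χ j) hb hU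
  rw [hq] at h3
  exact h3

theorem kk_sub : ∃ κ : ℝ, 0 < κ ∧ ∀ (i : Fin S.A.n) (p : ℂ → Vd (k + 2)) (c : ℂ → ℂ) (z₀ : ℂ), AnalyticAt ℂ p z₀ → ‖p z₀‖ ≤ 1 / 2 → AnalyticAt ℂ c z₀ → c z₀ ≠ 0 →
    Sub (fun z => S.kk i (p z) * ‖c z‖ ^ S.m) z₀ (κ * ‖deriv p z₀‖ ^ 2) := by
  have hX := S.cone
  choose C hC1 hC2 hC3 using fun i : Fin S.A.n => (S.A.χ i).exists_fs_bound hX
  obtain ⟨P, hP⟩ : ∃ P : ℝ, P = 1 + ∑ i, C i := ⟨_, rfl⟩
  have hCP : ∀ i, C i ≤ P := by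
    intro i
    have h1 := Finset.single_le_sum (f := fun i => C i) (fun i _ => zero_le_one.trans (hC1 i)) (Finset.mem_univ i)
    rw [hP]
    linarith
  have hP0 : 0 < P := by
    have := Finset.sum_nonneg fun i (_ : i ∈ Finset.univ) => zero_le_one.trans (hC1 i)
    rw [hP]
    linarith
  refine ⟨1 / (2 * P ^ 2), by positivity, ?_⟩
  intro i p c z₀ hp hpz hc hc0
  have hp2 : p z₀ ∈ ball (0 : Vd (k + 2)) 2 := by
    rw [mem_ball_zero_iff]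
    exact hpz.trans_lt (by norm_num)
  have hσ0 : (S.A.χ i).σ (p z₀) ≠ 0 := (S.A.χ i).sigma_ne_zero hX hp2
  have hσan : AnalyticAt ℂ (fun z => (S.A.χ i).σ (p z)) z₀ := AnalyticAt.comp (g := (S.A.χ i).σ) (f := p) ((S.A.χ i).σ_an _ hp2) hp
  have hkan : ∀ a, AnalyticAt ℂ (fun z => (S.Ω a).toFun ((S.A.χ i).σ (p z)) (fun l => fderiv ℂ (S.A.χ i).σ (p z) (Pi.single l 1))) z₀ := fun a =>
    AnalyticAt.comp (g := fun y : Vd (k + 2) => (S.Ω a).toFun ((S.A.χ i).σ y) (fun l => fderiv ℂ (S.A.χ i).σ y (Pi.single l 1))) (f := p)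
      (KK_an (S.Ω a) (S.A.χ i) hp2) hp
  have hsum0 : 0 < ∑ a, ‖(S.Ω a).toFun ((S.A.χ i).σ (p z₀)) (fun l => fderiv ℂ (S.A.χ i).σ (p z₀) (Pi.single l 1))‖ := by
    have hV := S.kk_pos i hp2
    unfold kk at hV
    rcases (Finset.sum_nonneg fun a (_ : a ∈ Finset.univ) =>
      norm_nonneg ((S.Ω a).toFun ((S.A.χ i).σ (p z₀)) (fun l => fderiv ℂ (S.A.χ i).σ (p z₀) (Pi.single l 1)))).eq_or_lt with h0 | h0
    · rw [← h0, zero_mul] at hV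
      exact absurd hV (lt_irrefl _)
    · exact h0
  have hS1 := KK_sum (h := fun a z => (S.Ω a).toFun ((S.A.χ i).σ (p z)) (fun l => fderiv ℂ (S.A.χ i).σ (p z) (Pi.single l 1))) hkan hsum0
  have hS2 : Sub (fun z => ‖(S.A.χ i).σ (p z)‖) z₀ (fs ((S.A.χ i).σ (p z₀)) (deriv (fun z => (S.A.χ i).σ (p z)) z₀) ^ 2 / 2) := by
    have h1 := Sub.norm_rpow hσan hσ0 1
    rw [one_mul] at h1
    exact h1.congr (Eventually.of_forall fun z => Real.rpow_one _)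
  have hS3 : Sub (fun z => ‖c z‖ ^ S.m) z₀ 0 := by
    refine (Sub.of_holo (hc.fun_pow S.m) (pow_ne_zero _ hc0)).congr (Eventually.of_forall fun z => ?_)
    exact norm_pow _ _
  have hS4 := (hS1.mul hS2).mul hS3
  have hd : deriv (fun z => (S.A.χ i).σ (p z)) z₀ = fderiv ℂ (S.A.χ i).σ (p z₀) (deriv p z₀) :=
    (HasFDerivAt.comp_hasDerivAt (l := (S.A.χ i).σ) (f := p) z₀ ((S.A.χ i).σ_an _ hp2).differentiableAt.hasFDerivAt hp.differentiableAt.hasDerivAt).deriv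
  have hle : ‖deriv p z₀‖ ≤ P * fs ((S.A.χ i).σ (p z₀)) (deriv (fun z => (S.A.χ i).σ (p z)) z₀) := by
    have h1 := hC2 i ((S.A.χ i).σ (p z₀)) ((S.A.χ i).σ_mem _ hp2).1 ((S.A.χ i).σ_mem _ hp2).2.1
      (by rw [((S.A.χ i).σ_mem _ hp2).2.2]; exact hpz.trans (by norm_num)) (fderiv ℂ (S.A.χ i).σ (p z₀) (deriv p z₀))
    rw [(S.A.χ i).fderiv_sigma hp2] at h1
    rw [hd]
    exact h1.trans (mul_le_mul_of_nonneg_right (hCP i) (Pool.Agent.H36.BP.fs_nonneg _ _))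
  have hle2 : ‖deriv p z₀‖ ^ 2 ≤ (P * fs ((S.A.χ i).σ (p z₀)) (deriv (fun z => (S.A.χ i).σ (p z)) z₀)) ^ 2 :=
    pow_le_pow_left₀ (norm_nonneg _) hle 2
  refine hS4.anti ?_
  have h3 : 1 / (2 * P ^ 2) * (P * fs ((S.A.χ i).σ (p z₀)) (deriv (fun z => (S.A.χ i).σ (p z)) z₀)) ^ 2 =
      fs ((S.A.χ i).σ (p z₀)) (deriv (fun z => (S.A.χ i).σ (p z)) z₀) ^ 2 / 2 := by
    field_simp
  have h4 : 1 / (2 * P ^ 2) * ‖deriv p z₀‖ ^ 2 ≤ 1 / (2 * P ^ 2) * (P * fs ((S.A.χ i).σ (p z₀)) (deriv (fun z => (S.A.χ i).σ (p z)) z₀)) ^ 2 :=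
    mul_le_mul_of_nonneg_left hle2 (by positivity)
  rw [h3] at h4
  linarith

end Setting

end Pool.Agent.TN
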